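import Pool.Agent.helper28.BQ.SpecK

/-!
# BQ, module TR: real and complex embeddings of a totally real field, norms
-/

namespace BQ

/-- the real embedding attached to a complex embedding with real values -/
noncomputable def TR_re {F : Type} [Field F] (f : F →+* ℂ) (h : ∀ x, (f x).im = 0) : F →+* ℝ where
  toFun x := (f x).re
  map_one' := by simp
  map_zero' := by simp
  map_add' x y := by simp
  map_mul' x y := by simp [Complex.mul_re, h]

/-- real embeddings are the complex ones, for a totally real field -/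
noncomputable def TR_equiv {F : Type} [Field F] (h : ∀ (f : F →+* ℂ) (x : F), (f x).im = 0) :
    (F →+* ℝ) ≃ (F →+* ℂ) where
  toFun v := Complex.ofRealHom.comp v
  invFun f := TR_re f (h f)
  left_inv v := by
    ext x
    simp [TR_re]
  right_inv f := by
    ext x
    apply Complex.ext
    · simp [TR_re]
    · simp [TR_re, h f x]

theorem TR : TR_stmt := by
  intro F _ _ hreal
  have h1 : ∀ f : F →+* ℂ, ∃ v : F →+* ℝ, ∀ x, f x = ((v x : ℝ) : ℂ) := by
    intro f
    refine ⟨TR_re f (hreal f), fun x => ?_⟩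
    apply Complex.ext
    · simp [TR_re]
    · simp [TR_re, hreal f x]
  have h2 : Fintype.card (F →+* ℝ) = Module.finrank ℚ F := by
    rw [Fintype.card_congr (TR_equiv hreal), NumberField.Embeddings.card]
  have h3 : ∀ a : F, ((Algebra.norm ℚ a : ℚ) : ℝ) = ∏ v : F →+* ℝ, v a := by
    intro a
    have h := Algebra.norm_eq_prod_embeddings ℚ ℂ a
    have h' : ∏ σ : F →ₐ[ℚ] ℂ, σ a = ∏ v : F →+* ℝ, ((v a : ℝ) : ℂ) := by
      rw [← (RingHom.equivRatAlgHom (R := F) (S := ℂ)).prod_comp, ← (TR_equiv hreal).prod_comp]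
      rfl
    rw [h'] at h
    have h4 : (((Algebra.norm ℚ a : ℚ) : ℝ) : ℂ) = ((∏ v : F →+* ℝ, v a : ℝ) : ℂ) := by
      rw [Complex.ofReal_prod, ← h]
      simp
    exact_mod_cast h4
  have h4 : ∀ a : F, IsIntegral ℤ a → a ≠ 0 → 1 ≤ ∏ v : F →+* ℝ, |v a| := by
    intro a ha h0
    have hn : IsIntegral ℤ (Algebra.norm ℚ a) := Algebra.isIntegral_norm ℚ ha
    obtain ⟨n, hn⟩ := IsIntegrallyClosed.isIntegral_iff.1 hn
    have hn0 : n ≠ 0 := by
      rintro rfl
      apply h0
      rw [← Algebra.norm_eq_zero_iff (R := ℚ)]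
      rw [← hn]
      simp
    rw [← Finset.abs_prod, ← h3 a, ← hn]
    have h5 : (1 : ℤ) ≤ |n| := Int.one_le_abs hn0
    have h6 : (((algebraMap ℤ ℚ n : ℚ) : ℝ)) = (n : ℝ) := by simp
    rw [h6, ← Int.cast_abs]
    exact_mod_cast h5
  refine ⟨h1, h2, h3, h4, ?_⟩
  intro a ha h0
  by_contra hcon
  push Not at hcon
  have hne : (Finset.univ : Finset (F →+* ℝ)).Nonempty := by
    obtain ⟨v, -⟩ := h1 (Classical.arbitrary (F →+* ℂ))
    exact ⟨v, Finset.mem_univ v⟩
  have h7 : ∏ v : F →+* ℝ, |v a| < ∏ v : F →+* ℝ, (1 : ℝ) := by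
    apply Finset.prod_lt_prod_of_nonempty
    · intro v _
      exact abs_pos.2 (fun hv => h0 (by simpa using hv))
    · intro v _
      exact hcon v
    · exact hne
  have h8 := h4 a ha h0
  simp at h7
  linarith

end BQ
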